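import Pool.Agent.Results.MP_a247fa_nt.OddCriticalPoints
import Pool.Agent.Results.MP_e43fce_nt.TimesOfAffineNeighbours

set_option autoImplicit false

/-!
# MP_a247fa_nt: clusters of critical points of Chamberland's map with the same fate

Let `f` be Chamberland's real extension of the `3x+1` map `T`.  For odd `n` let `c_n` be the critical
point of `f` in `(n, n + 1/2)` (it is unique; these are the critical points which follow the orbits of
`T`).  An affine neighbour of `n` is an integer `m` with `|2^a 3^b m - 2^a' 3^b' n| ≤ exp (κ n)`,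
`κ n = √(log n) / (log log n) ^ 16`, exponents `a, b, a', b' ≤ κ n`; e.g. all `m` with
`|m - n| ≤ exp (κ n)`, and all `m` close to `3 n`, `6 n`, `9 n / 8`.

For almost all odd `n` there is `t ≤ log₄ n` such that for ALL odd affine neighbours `m` of `n` the
orbits of `c_m` and `c_n` are, from the times `t + a'` and `t + a` on, as close together as both are to
the orbit of an integer: `|f^(t+a'+k)(c_m) - f^(t+a+k)(c_n)| ≤ 5 / (6 (2 z + 1))`,
`z = T^(t+a+k)(n)`, for all `k ≥ 0`.

Consequently the fates of the critical points come in clusters: with some `δ > 0`, for the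
proportion `δ` of the odd `n` the critical points at all odd affine neighbours of `n` are attracted by one
of the two known cycles (or end in a point of period two in `[1.02, 1.05]`), and for the proportion
`1 - δ` none of them is.
-/

namespace Pool.Agent.Results.MP_a247fa_nt.ClustersOfCriticalPoints

open Filter Topology
open Pool.Agent.H499R2.ND (Tn)
open Pool.Agent.H499R2.CO (HD HD_congr)

/-- Chamberland's map. -/
noncomputable def f (x : ℝ) : ℝ := x + 1 / 4 - (2 * x + 1) / 4 * Real.cos (Real.pi * x)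

/-- The `3x+1` map. -/
def T (n : ℕ) : ℕ := if n % 2 = 0 then n / 2 else (3 * n + 1) / 2

/-- `c` is a critical point of `f` in `(n, n + 1/2)`. -/
def Crit (n : ℕ) (c : ℝ) : Prop := (n : ℝ) < c ∧ c < n + 1 / 2 ∧ deriv f c = 0

/-- Points of attracting cycles contained in `(0,∞)`. -/
def AttractingPoint (y : ℝ) : Prop :=
  0 < y ∧ 0 < Function.minimalPeriod f y ∧ |deriv (f^[Function.minimalPeriod f y]) y| < 1

/-- The orbit of `x` converges to the cycle of `y`. -/
def Attracts (y x : ℝ) : Prop :=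
  ∃ j : ℕ, Tendsto (fun k : ℕ => f^[k * Function.minimalPeriod f y + j] x) atTop (𝓝 y)

/-- `x` is attracted by the cycle `A₁ = {1, 2}` or by the cycle `A₂ = {a, f a}`, or its orbit ends in a
point of `[1.02, 1.05]` of period two. -/
def KnownFate (a x : ℝ) : Prop :=
  Attracts 1 x ∨ Attracts a x ∨ ∃ K, f^[K] x ∈ Set.Icc (1.02 : ℝ) 1.05 ∧ f^[K + 2] x = f^[K] x

/-- Among the odd positive integers those with the property `P` have the natural density `δ`. -/
def HasOddDensity (P : ℕ → Prop) (δ : ℝ) : Prop :=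
  Tendsto (fun N : ℕ => 2 / (N : ℝ) * ({m : ℕ | m ≤ N ∧ Odd m ∧ P m}.ncard : ℝ)) atTop (𝓝 δ)

/-- The scale `√ (log n) / (log log n) ^ 16`. -/
noncomputable def κ (n : ℕ) : ℝ := √ (Real.log n) / (Real.log (Real.log n)) ^ 16

/-- The integers `n` and `m` are linked by the exponents `a, b, a', b'`: all the exponents are `≤ κ n`
and `|2^a 3^b m - 2^a' 3^b' n| ≤ exp (κ n)`. -/
def Linked (n m a b a' b' : ℕ) : Prop :=
  (a : ℝ) ≤ κ n ∧ (b : ℝ) ≤ κ n ∧ (a' : ℝ) ≤ κ n ∧ (b' : ℝ) ≤ κ n ∧
    |((2 ^ a * 3 ^ b * (m : ℤ) - 2 ^ a' * 3 ^ b' * (n : ℤ) : ℤ) : ℝ)| ≤ Real.exp (κ n)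

/-- `m` is an odd affine neighbour of `n`. -/
def OddNeighbour (n m : ℕ) : Prop := Odd m ∧ ∃ a b a' b' : ℕ, Linked n m a b a' b'

theorem odd_density_of {P : ℕ → Prop} {δ : ℝ} (h : HD (fun m => m % 2 = 1 ∧ P m) (δ / 2)) :
    HasOddDensity P δ := by
  unfold HasOddDensity
  have h1 := h.const_mul 2
  rw [mul_div_cancel₀ δ (by norm_num : (2 : ℝ) ≠ 0)] at h1
  refine h1.congr fun N => ?_
  have e : {m : ℕ | 1 ≤ m ∧ m ≤ N ∧ m % 2 = 1 ∧ P m} = {m : ℕ | m ≤ N ∧ Odd m ∧ P m} := by
    ext m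
    constructor
    · rintro ⟨g1, g2, g3, g4⟩
      exact ⟨g2, Nat.odd_iff.2 g3, g4⟩
    · rintro ⟨g2, g3, g4⟩
      exact ⟨g3.pos, g2, Nat.odd_iff.1 g3, g4⟩
  rw [e]
  ring

/-- the critical points follow the orbits of `T`, and their fate -/
theorem crit_data : ∃ a : ℝ, a ∈ Set.Icc (1.19 : ℝ) 1.196 ∧ f (f a) = a ∧ AttractingPoint 1 ∧
    AttractingPoint a ∧ ∀ n : ℕ, n % 2 = 1 → (∃ c, Crit n c) ∧ ∀ c, Crit n c →
      (∀ k : ℕ, ((T^[k] n : ℕ) : ℝ) ≤ f^[k] c ∧
          f^[k] c ≤ (T^[k] n : ℕ) + 5 / (6 * (2 * ((T^[k] n : ℕ) : ℝ) + 1))) ∧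
      ((∃ k, T^[k] n = 1) ↔ KnownFate a c) := by
  obtain ⟨a, ha, hfa, -, hat, -, -, hc⟩ := Pool.Agent.Results.MP_a247fa_nt.OddCriticalPoints.result
  refine ⟨a, ha, hfa, hat 1 (by simp), hat a (by simp), fun n hn => ?_⟩
  obtain ⟨c, h1, h2, h3, h4, h5, h6, -⟩ := hc n hn
  refine ⟨⟨c, h1, h2, h3⟩, ?_⟩
  rintro c' ⟨g1, g2, g3⟩
  have : c' = c := h4 c' g1 g2 g3
  subst this
  exact ⟨h5, h6⟩

/-- For almost all odd `n` (natural density one among the odd positive integers) there is `t` with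
`4 ^ t ≤ n` such that the critical points `c'`, `c` at all odd `m` linked to `n` by `a, b, a', b'` and at
`n` have the same orbits from the times `t + a'` and `t + a` on, up to `5 / (6 (2 z + 1))`,
`z = T^(t+a+k)(n)`.  With some `0 < δ ≤ 1`, for the proportion `δ` of the odd `n` the critical points
at all odd affine neighbours have a known fate, for the proportion `1 - δ` none of them has; `δ = 1` if
and only if the critical points at all odd integers have a known fate. -/
theorem result : ∃ a : ℝ, a ∈ Set.Icc (1.19 : ℝ) 1.196 ∧ f (f a) = a ∧ AttractingPoint 1 ∧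
    AttractingPoint a ∧ (∀ n : ℕ, Odd n → ∃! c, Crit n c) ∧
    HasOddDensity (fun n => ∃ t : ℕ, 4 ^ t ≤ n ∧ ∀ m a₁ b₁ a₂ b₂ : ℕ, Odd m →
      Linked n m a₁ b₁ a₂ b₂ → ∀ c c' : ℝ, Crit n c → Crit m c' → ∀ k : ℕ,
        |f^[t + a₂ + k] c' - f^[t + a₁ + k] c| ≤
          5 / (6 * (2 * ((T^[t + a₁ + k] n : ℕ) : ℝ) + 1))) 1 ∧
    ∃ δ : ℝ, 0 < δ ∧ δ ≤ 1 ∧ (δ = 1 ↔ ∀ n : ℕ, Odd n → ∀ c, Crit n c → KnownFate a c) ∧
      HasOddDensity (fun n => ∀ m, OddNeighbour n m → ∀ c, Crit m c → KnownFate a c) δ ∧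
      HasOddDensity (fun n => ∀ m, OddNeighbour n m → ∀ c, Crit m c → ¬ KnownFate a c) (1 - δ) := by
  obtain ⟨a, ha, hfa, hat1, hata, hcrit⟩ := crit_data
  have hTn : ∀ k n : ℕ, T^[k] n = Tn^[k] n := fun k n => rfl
  refine ⟨a, ha, hfa, hat1, hata, ?_, ?_, ?_⟩
  · intro n hn
    obtain ⟨c, h1, h2, h3, h4, -⟩ :=
      Pool.Agent.Results.MP_a247fa_nt.OddCriticalPoints.result.choose_spec.2.2.2.2.2.2 n
        (Nat.odd_iff.1 hn)
    exact ⟨c, ⟨h1, h2, h3⟩, fun c' hc' => h4 c' hc'.1 hc'.2.1 hc'.2.2⟩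
  · -- the orbits
    obtain ⟨n0, hn0⟩ := Pool.Agent.W38.AF.link_data
    apply odd_density_of
    refine HD_congr (Pool.Agent.H499R2.HL.HD_and (Pool.Agent.W38.AF.fwdN (Or.inl rfl))
      (Pool.Agent.H499R2.HL.HD_large n0)) (P := fun n => n % 2 = 1)
      Pool.Agent.H499R2.ND.odd_density fun n hn hE => ?_
    obtain ⟨hE, hN⟩ := hE
    obtain ⟨t, ht, hd⟩ := hn0 n hN hE
    refine ⟨fun hodd => ⟨hodd, t, ht, fun m a₁ b₁ a₂ b₂ hm hL c c' hc hc' k => ?_⟩, fun h => h.1⟩
    obtain ⟨h1, -, -, -⟩ := hd m a₁ b₁ a₂ b₂ ⟨hL.1, hL.2.1, hL.2.2.1, hL.2.2.2.1, hL.2.2.2.2⟩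
    have e : T^[t + a₂ + k] m = T^[t + a₁ + k] n := by
      rw [hTn, hTn, Nat.add_comm (t + a₂) k, Nat.add_comm (t + a₁) k,
        Function.iterate_add_apply Tn k (t + a₂) m, Function.iterate_add_apply Tn k (t + a₁) n, h1]
    have g1 := ((hcrit n hodd).2 c hc).1 (t + a₁ + k)
    have g2 := ((hcrit m (Nat.odd_iff.1 hm)).2 c' hc').1 (t + a₂ + k)
    rw [e] at g2
    rw [abs_le]
    constructor
    · linarith [g1.2, g2.1]
    · linarith [g1.1, g2.2]
  · -- the fates
    open Pool.Agent.Results.MP_e43fce_nt.TimesOfAffineNeighbours in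
    obtain ⟨E, hE, hEn⟩ := generic
    obtain ⟨δ, h1, h2, h3⟩ := Pool.Agent.W38.AF.inv_nbr (Or.inl rfl : (1 : ℤ) = 1 ∨ (1 : ℤ) = -1)
      Pool.Agent.Results.MP_e43fce_nt.TimesOfAffineNeighbours.S_inv
    have hpos : 0 < δ := h1.2 ⟨1, ⟨0, rfl⟩, by norm_num⟩
    have hle : δ ≤ 1 := by
      have h4 := (h3 1 0 one_pos).2
      have h5 : (0 : ℝ) ≤ (1 - δ) / (1 : ℕ) :=
        ge_of_tendsto' h4 fun N => by positivity
      push_cast at h5
      linarith
    have hreach : ∀ n : ℕ, ((n : ℤ) ∈ Pool.Agent.Results.MP_e43fce_nt.TimesOfAffineNeighbours.S) ↔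
        ∃ k, T^[k] n = 1 := fun n =>
      (Pool.Agent.Results.MP_e43fce_nt.TimesOfAffineNeighbours.mem_S n).trans
        Pool.Agent.Results.MP_e43fce_nt.TimesOfAffineNeighbours.l_ne_top
    -- the known fate of the critical points at odd integers
    have hfate : ∀ n : ℕ, Odd n → ∀ c, Crit n c →
        (KnownFate a c ↔ (n : ℤ) ∈ Pool.Agent.Results.MP_e43fce_nt.TimesOfAffineNeighbours.S) :=
      fun n hn c hc => (((hcrit n (Nat.odd_iff.1 hn)).2 c hc).2.symm).trans (hreach n).symm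
    have hex : ∀ n : ℕ, Odd n → ∃ c, Crit n c := fun n hn => (hcrit n (Nat.odd_iff.1 hn)).1
    -- generic odd integers
    have hgen : ∀ n, 1 ≤ n → E n → Odd n →
        ((∀ m, OddNeighbour n m → ∀ c, Crit m c → KnownFate a c) ↔
          (n : ℤ) ∈ Pool.Agent.Results.MP_e43fce_nt.TimesOfAffineNeighbours.S) ∧
        ((∀ m, OddNeighbour n m → ∀ c, Crit m c → ¬ KnownFate a c) ↔
          (n : ℤ) ∉ Pool.Agent.Results.MP_e43fce_nt.TimesOfAffineNeighbours.S) := by
      intro n hn hEn' hodd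
      obtain ⟨g1, -, g3, -⟩ := hEn n hn hEn'
      have hself : OddNeighbour n n := ⟨hodd, g3⟩
      have hsame : ∀ m, OddNeighbour n m →
          ((m : ℤ) ∈ Pool.Agent.Results.MP_e43fce_nt.TimesOfAffineNeighbours.S ↔
            (n : ℤ) ∈ Pool.Agent.Results.MP_e43fce_nt.TimesOfAffineNeighbours.S) := by
        rintro m ⟨-, a₁, b₁, a₂, b₂, hL⟩
        have g4 := g1 m a₁ b₁ a₂ b₂ hL
        rw [Pool.Agent.Results.MP_e43fce_nt.TimesOfAffineNeighbours.mem_S,
          Pool.Agent.Results.MP_e43fce_nt.TimesOfAffineNeighbours.mem_S]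
        constructor
        · intro h5 h6
          rw [h6, top_add] at g4
          obtain ⟨r, hr⟩ := ENat.ne_top_iff_exists.1 h5
          rw [← hr] at g4
          exact absurd g4 (by exact_mod_cast ENat.natCast_ne_top _)
        · intro h5 h6
          rw [h6, top_add] at g4
          obtain ⟨r, hr⟩ := ENat.ne_top_iff_exists.1 h5
          rw [← hr] at g4
          exact absurd g4.symm (by exact_mod_cast ENat.natCast_ne_top _)
      obtain ⟨c, hc⟩ := hex n hodd
      refine ⟨⟨fun h => (hfate n hodd c hc).1 (h n hself c hc), fun h m hm c' hc' => ?_⟩,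
        ⟨fun h hS => h n hself c hc ((hfate n hodd c hc).2 hS), fun h m hm c' hc' hK => ?_⟩⟩
      · exact (hfate m hm.1 c' hc').2 ((hsame m hm).2 h)
      · exact h ((hsame m hm).1 ((hfate m hm.1 c' hc').1 hK))
    refine ⟨δ, hpos, hle, ?_, ?_, ?_⟩
    · rw [h2]
      constructor
      · intro h n hn c hc
        exact (hfate n hn c hc).2 (h n (by have := hn.pos; omega))
      · intro h
        -- all positive integers
        have hall : ∀ n : ℕ, 1 ≤ n →
            (n : ℤ) ∈ Pool.Agent.Results.MP_e43fce_nt.TimesOfAffineNeighbours.S := by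
          intro n
          induction n using Nat.strong_induction_on with
          | _ n ih =>
            intro hn
            rcases Nat.even_or_odd n with he | ho
            · rw [Pool.Agent.Results.MP_e43fce_nt.TimesOfAffineNeighbours.S_inv]
              have e1 : Pool.Agent.H499R2.ND.Ci (n : ℤ) = ((n / 2 : ℕ) : ℤ) := by
                have := Nat.even_iff.1 he
                show (if (n : ℤ) % 2 = 0 then (n : ℤ) / 2 else 3 * (n : ℤ) + 1) = _
                rw [if_pos (by omega)]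
                push_cast
                rfl
              rw [e1]
              have := Nat.even_iff.1 he
              exact ih (n / 2) (by omega) (by omega)
            · obtain ⟨c, hc⟩ := hex n ho
              exact (hfate n ho c hc).1 (h n ho c hc)
        intro x hx
        rw [one_mul] at hx
        obtain ⟨n, rfl⟩ := Int.eq_ofNat_of_zero_le hx.le
        exact hall n (by omega)
    · apply odd_density_of
      have h4 := (h3 2 1 two_pos).1
      refine HD_congr hE (by exact_mod_cast h4) fun n hn hEn' => ?_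
      obtain ⟨g1, g2, g3, -⟩ := hEn n hn hEn'
      constructor
      · rintro ⟨g5, g6⟩
        have hodd : Odd n := Nat.odd_iff.2 (by omega)
        refine ⟨by omega, (hgen n hn hEn' hodd).1.2 ?_⟩
        exact (g2 _).1 g6 n g3
      · rintro ⟨g5, g6⟩
        have hodd : Odd n := Nat.odd_iff.2 g5
        have hS := (hgen n hn hEn' hodd).1.1 g6
        refine ⟨by omega, (g2 _).2 ?_⟩
        rintro m ⟨a₁, b₁, a₂, b₂, hL⟩
        rw [Pool.Agent.Results.MP_e43fce_nt.TimesOfAffineNeighbours.mem_S] at hS ⊢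
        intro h6
        have g4 := g1 m a₁ b₁ a₂ b₂ hL
        rw [h6, top_add] at g4
        obtain ⟨r, hr⟩ := ENat.ne_top_iff_exists.1 hS
        rw [← hr] at g4
        exact absurd g4.symm (by exact_mod_cast ENat.natCast_ne_top _)
    · apply odd_density_of
      have h4 := (h3 2 1 two_pos).2
      refine HD_congr hE (by exact_mod_cast h4) fun n hn hEn' => ?_
      obtain ⟨g1, g2, g3, -⟩ := hEn n hn hEn'
      have g7 := g2 (Pool.Agent.Results.MP_e43fce_nt.TimesOfAffineNeighbours.S)ᶜ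
      simp only [Set.mem_compl_iff] at g7
      constructor
      · rintro ⟨g5, g6⟩
        have hodd : Odd n := Nat.odd_iff.2 (by omega)
        refine ⟨by omega, (hgen n hn hEn' hodd).2.2 ?_⟩
        exact g7.1 g6 n g3
      · rintro ⟨g5, g6⟩
        have hodd : Odd n := Nat.odd_iff.2 g5
        have hS := (hgen n hn hEn' hodd).2.1 g6
        refine ⟨by omega, g7.2 ?_⟩
        rintro m ⟨a₁, b₁, a₂, b₂, hL⟩ hmS
        apply hS
        rw [Pool.Agent.Results.MP_e43fce_nt.TimesOfAffineNeighbours.mem_S] at hmS ⊢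
        intro h6
        have g4 := g1 m a₁ b₁ a₂ b₂ hL
        rw [h6, top_add] at g4
        obtain ⟨r, hr⟩ := ENat.ne_top_iff_exists.1 hmS
        rw [← hr] at g4
        exact absurd g4 (by exact_mod_cast ENat.natCast_ne_top _)

end Pool.Agent.Results.MP_a247fa_nt.ClustersOfCriticalPoints
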