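import Pool.Agent.Results.MP_a247fa_nt.ContractionSparsity
import Pool.Agent.H107.SparseInt

/-!
# Chamberland's map: no attracting cycle contracts in windows around the multiples of almost every number

Let `f` be Chamberland's extension of the `3x+1` map. A cycle *contracts at* its point `x` if `|f'(x)| < 1`; every attracting
cycle does at some of its points. By the starting file `ContractionSparsity` such a point of an attracting cycle in
`(0, ∞)` is at distance at most `1/2` of an integer `m` with the property `ContractsNear m`, or at distance less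
than `3 / (8 n + 4)` below an even integer `n`; there are `O(R ^ η)` integers `m` of the first kind in intervals of length
`R`, with `η` smaller than the entropy exponent `H = 0.94995...`.

**Theorem.** Let `v_j ≥ 1` be a sequence with exponent of convergence at most `τ` and `0 < θ < 1`. For all real `α` outside
of a set of Hausdorff dimension at most `(η + τ) / (1 - θ)` the following holds for all large `j`: no attracting cycle of `f`
contracts at a point of the window `|x - α v_j| ≤ v_j ^ θ / 2`, except at points at distance less than `3 / (8 n + 4)` below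
even integers `n`. Moreover, for all maps `φ` of the integers to a metric space and `σ > 0`, for all `z` outside of a set of dimension at most `η / σ`, only
finitely many integers `m` near which attracting cycles contract satisfy `dist (φ m) z ≤ m ^ (-σ)`.
-/

set_option autoImplicit false

namespace Pool.Agent.Results.MP_a247fa_nt.ContractionInWindows

open Filter Pool.Agent.Results.MP_a247fa_nt.ContractionSparsity
open Pool.Agent.V35.WM (ExpLe)

/-- The entropy exponent `0.94995...`. -/
noncomputable def H : ℝ := Real.binEntropy (Real.log 2 / Real.log 3) / Real.log 2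

theorem H_pos : 0 < H := by
  have hl2 : 0 < Real.log 2 := Real.log_pos (by norm_num)
  have hl3 : 0 < Real.log 3 := Real.log_pos (by norm_num)
  have h23 : Real.log 2 < Real.log 3 := Real.log_lt_log (by norm_num) (by norm_num)
  unfold H
  refine div_pos (Real.binEntropy_pos (div_pos hl2 hl3) ?_) hl2
  rw [div_lt_one hl3]
  exact h23

/-- `x` is a point of an attracting cycle in `(0, ∞)` at which the cycle contracts, and it is not just below an even
integer `n ≥ 2`, at distance less than `3 / (8 n + 4)` -/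
def ContractsAt (x : ℝ) : Prop :=
  AttractingPoint x ∧ |deriv f x| < 1 ∧ ¬ ∃ n : ℕ, n % 2 = 0 ∧ 2 ≤ n ∧ x < n ∧ (n : ℝ) - x < 3 / (8 * n + 4)

/-- There is `η < H` such that (1) for `v_j ≥ 1` of exponent of convergence at most `τ`, `0 < θ < 1` and all `α` outside a set
of dimension at most `(η + τ) / (1 - θ)`, for all large `j` no attracting cycle contracts at a point `x` with
`|x - α v_j| ≤ v_j ^ θ / 2` (except just below even integers); (2) for all maps `φ` to metric spaces, `σ > 0` and `z` outside a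
set of dimension at most `η / σ` only finitely many `m` near which attracting cycles contract satisfy
`dist (φ m) z ≤ m ^ (-σ)`; (3) examples of exponents of convergence. -/
theorem result : ∃ η : ℝ, 0 ≤ η ∧ η < H ∧
    (∀ (v : ℕ → ℝ) (τ θ : ℝ), (∀ j, 1 ≤ v j) → 0 ≤ τ → ExpLe v τ → 0 < θ → θ < 1 →
      ∃ E : Set ℝ, dimH E ≤ ENNReal.ofReal ((η + τ) / (1 - θ)) ∧ ∀ α ∉ E,
        ∃ j₀ : ℕ, ∀ j : ℕ, j₀ ≤ j → ∀ x : ℝ, ContractsAt x → (v j) ^ θ / 2 < |x - α * v j|) ∧
    (∀ (M : Type) [MetricSpace M] (φ : ℤ → M) (σ : ℝ), 0 < σ →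
      ∃ E : Set M, dimH E ≤ ENNReal.ofReal (η / σ) ∧ ∀ z ∉ E,
        {m : ℕ | ContractsNear m ∧ dist (φ m) z ≤ (m : ℝ) ^ (-σ)}.Finite) ∧
    (∀ b : ℝ, 1 < b → ExpLe (fun m : ℕ => b ^ m) 0) ∧
    (∀ a : ℝ, 0 < a → ExpLe (fun m : ℕ => ((m : ℝ) + 1) ^ a) (1 / a)) := by
  classical
  obtain ⟨⟨η, C, hη, h⟩, hper, hpt⟩ := Pool.Agent.Results.MP_a247fa_nt.ContractionSparsity.result
  have hsp : ∀ _ : Unit, Pool.Agent.H107.SI.Sparse {z : ℤ | ∃ m : ℕ, ContractsNear m ∧ (m : ℤ) = z} (max η 0) := by
    intro _
    refine ⟨|C|, fun R hR F hF => ?_⟩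
    have h1 := h 0 R hR (F.image Int.toNat) (by
      intro m hm
      rw [Finset.mem_image] at hm
      obtain ⟨z, hz, rfl⟩ := hm
      obtain ⟨⟨m, hm1, hm2⟩, hzR⟩ := hF z hz
      rw [← hm2, Int.toNat_natCast]
      refine ⟨hm1, ?_⟩
      rw [← hm2, Int.cast_natCast] at hzR
      rw [sub_zero]
      exact hzR)
    have h2 : (F.image Int.toNat).card = F.card := by
      refine Finset.card_image_of_injOn fun x hx y hy hxy => ?_
      obtain ⟨⟨m, _, hm2⟩, _⟩ := hF x hx
      obtain ⟨⟨m', _, hm2'⟩, _⟩ := hF y hy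
      rw [← hm2, ← hm2'] at hxy ⊢
      rw [Int.toNat_natCast, Int.toNat_natCast] at hxy
      rw [hxy]
    rw [h2] at h1
    refine h1.trans ?_
    have h3 : C * R ^ η ≤ |C| * R ^ η := mul_le_mul_of_nonneg_right (le_abs_self C) (by positivity)
    refine h3.trans (mul_le_mul_of_nonneg_left ?_ (abs_nonneg C))
    exact Real.rpow_le_rpow_of_exponent_le hR (le_max_left _ _)
  refine ⟨max η 0, le_max_right _ _, max_lt hη H_pos, ?_, ?_, Pool.Agent.V35.WM.expLe_geom, Pool.Agent.V35.WM.expLe_pow⟩
  · intro v τ θ hv hτ hvτ hθ0 hθ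
    obtain ⟨E, h1, h2⟩ := Pool.Agent.H107.SI.win (J := Unit) _ (le_max_right _ _) hsp hv hτ hvτ hθ
    refine ⟨E, h1, fun α hα => ?_⟩
    obtain ⟨j₀, hj₀⟩ := h2 α hα ()
    have htv : Tendsto v atTop atTop :=
      Pool.Agent.V35.WM.tendsto_of_expLe (fun j => lt_of_lt_of_le one_pos (hv j)) hτ hvτ
    have htv2 : Tendsto (fun j => (v j) ^ θ) atTop atTop := (tendsto_rpow_atTop hθ0).comp htv
    obtain ⟨j₁, hj₁⟩ := eventually_atTop.1 (htv2.eventually_ge_atTop 1)
    refine ⟨max j₀ j₁, fun j hj x hx => ?_⟩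
    obtain ⟨hx1, hx2, hx3⟩ := hx
    rcases hpt x hx1 hx2 with ⟨m, hm, hxm⟩ | hx4
    · have h5 := hj₀ j ((le_max_left _ _).trans hj) (m : ℤ) ⟨m, hm, rfl⟩
      have h6 := hj₁ j ((le_max_right _ _).trans hj)
      rw [Int.cast_natCast] at h5
      have h7 : |(m : ℝ) - α * v j| ≤ |x - α * v j| + |x - m| := by
        have := abs_sub_abs_le_abs_sub ((m : ℝ) - α * v j) (x - α * v j)
        have h8 : ((m : ℝ) - α * v j) - (x - α * v j) = -(x - m) := by ring
        rw [h8, abs_neg] at this
        linarith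
      linarith
    · exact absurd hx4 hx3
  · intro M _ φ σ hσ
    obtain ⟨E, h1, h2⟩ := Pool.Agent.H107.SI.near (J := Unit) _ (le_max_right _ _) hsp φ hσ
    refine ⟨E, h1, fun z hz => ?_⟩
    have h3 := (h2 z hz ()).preimage (f := fun m : ℕ => (m : ℤ)) (Nat.cast_injective.injOn)
    refine h3.subset ?_
    rintro m ⟨hm1, hm2⟩
    refine ⟨⟨m, hm1, rfl⟩, ?_⟩
    have h4 : (1 : ℝ) ≤ m := by exact_mod_cast (hper m hm1).1
    rw [Int.cast_natCast, abs_of_nonneg (by linarith : (0 : ℝ) ≤ m), max_eq_right h4]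
    exact hm2

end Pool.Agent.Results.MP_a247fa_nt.ContractionInWindows
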