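import Pool.Agent.Results.MP_a247fa_nt.ContractionSparsity
import Pool.Agent.Helper203.NP.Two
import Pool.Agent.V11001.KM.RealWin

/-!
# Chamberland's map: no attracting cycle contracts near the powers of a typical number, nor near `n ^ α`

Let `f` be Chamberland's extension of the `3x+1` map. A cycle *contracts at* its point `x` if `|f'(x)| < 1`; every attracting
cycle does at some of its points. By the starting file `ContractionSparsity` such a point of an attracting cycle in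
`(0, ∞)` is at distance at most `1/2` of an integer `m` with the property `ContractsNear m`, or at distance less
than `3 / (8 n + 4)` below an even integer `n`; there are `O(R ^ η)` integers `m` of the first kind in intervals of length
`R`, with `η` smaller than the entropy exponent `H = 0.94995...`. It says nothing about given places. Here we consider the
windows around `β z ^ (ν n)`, for instance around the powers `z ^ n` of a real number `z > 1`, and around `n ^ α`.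
-/

set_option autoImplicit false

namespace Pool.Agent.Results.MP_a247fa_nt.ContractionNearPowers

open Filter MeasureTheory Topology Pool.Agent.Results.MP_a247fa_nt.ContractionSparsity

/-- The entropy exponent `0.94995...`. -/
noncomputable def H : ℝ := Real.binEntropy (Real.log 2 / Real.log 3) / Real.log 2

theorem H_pos : 0 < H := by
  have hl2 : 0 < Real.log 2 := Real.log_pos (by norm_num)
  have hl3 : 0 < Real.log 3 := Real.log_pos (by norm_num)
  have h23 : Real.log 2 < Real.log 3 := Real.log_lt_log (by norm_num) (by norm_num)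
  unfold H
  refine div_pos (Real.binEntropy_pos (div_pos hl2 hl3) ?_) hl2
  rw [div_lt_one hl3]
  exact h23

theorem H_le : H ≤ 1 := by
  have hl2 : 0 < Real.log 2 := Real.log_pos (by norm_num)
  unfold H
  rw [div_le_one hl2]
  exact Real.binEntropy_le_log_two

/-- `x` is a point of an attracting cycle in `(0, ∞)` at which the cycle contracts, and it is not just below an even
integer `n ≥ 2`, at distance less than `3 / (8 n + 4)` -/
def ContractsAt (x : ℝ) : Prop :=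
  AttractingPoint x ∧ |deriv f x| < 1 ∧ ¬ ∃ n : ℕ, n % 2 = 0 ∧ 2 ≤ n ∧ x < n ∧ (n : ℝ) - x < 3 / (8 * n + 4)

/-- the integer parts of the points at which attracting cycles contract -/
def S : Set ℕ := {k : ℕ | ContractsNear k ∨ ContractsNear (k + 1)}

lemma floor_mem {x : ℝ} (hx : ContractsAt x) : ⌊x⌋₊ ∈ S := by
  obtain ⟨h1, h2, h3⟩ := hx
  have hx0 : 0 < x := h1.1
  rcases Pool.Agent.Results.MP_a247fa_nt.ContractionSparsity.result.2.2 x h1 h2 with ⟨m, hm, hxm⟩ | h4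
  · obtain ⟨g1, g2⟩ := abs_le.1 hxm
    have h5 := Nat.floor_le hx0.le
    have h6 := Nat.lt_floor_add_one x
    have h7 : m ≤ ⌊x⌋₊ + 1 := by
      have : (m : ℝ) < (⌊x⌋₊ : ℝ) + 2 := by linarith
      have h8 : m < ⌊x⌋₊ + 2 := by exact_mod_cast this
      omega
    have h8 : ⌊x⌋₊ ≤ m := by
      have : ((⌊x⌋₊ : ℕ) : ℝ) < m + 1 := by linarith
      have h9 : ⌊x⌋₊ < m + 1 := by exact_mod_cast this
      omega
    rcases Nat.eq_or_lt_of_le h8 with h9 | h9
    · left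
      rw [h9]
      exact hm
    · right
      have : m = ⌊x⌋₊ + 1 := by omega
      rw [← this]
      exact hm
  · exact absurd h4 h3

lemma count_S {η C : ℝ} (h : ∀ y R : ℝ, 1 ≤ R → ∀ S : Finset ℕ, (∀ m ∈ S, ContractsNear m ∧ |(m : ℝ) - y| ≤ R) →
    (S.card : ℝ) ≤ C * R ^ η) (ε : ℝ) (hε : 0 < ε) : ∃ C' : ℝ, ∀ X : ℝ, 1 ≤ X →
      {t : ℕ | t ∈ S ∧ (t : ℝ) ≤ X}.Finite ∧
      ({t : ℕ | t ∈ S ∧ (t : ℝ) ≤ X}.ncard : ℝ) ≤ C' * X ^ (max η 0 + ε) := by
  classical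
  refine ⟨2 * (|C| * 2 ^ (max η 0)), fun X hX => ?_⟩
  have hX0 : 0 ≤ X := by linarith
  have hfin : {t : ℕ | t ∈ S ∧ (t : ℝ) ≤ X}.Finite :=
    (Set.finite_Icc 0 ⌊X⌋₊).subset fun t ht => ⟨Nat.zero_le _, Nat.le_floor ht.2⟩
  refine ⟨hfin, ?_⟩
  set A : Finset ℕ := (Finset.range (⌊X⌋₊ + 2)).filter ContractsNear with hA
  have hAcard : (A.card : ℝ) ≤ C * (2 * X) ^ η := by
    refine h 0 (2 * X) (by linarith) A fun m hm => ?_
    rw [hA, Finset.mem_filter, Finset.mem_range] at hm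
    refine ⟨hm.2, ?_⟩
    rw [sub_zero, abs_of_nonneg (Nat.cast_nonneg m)]
    have h1 : (m : ℝ) ≤ ⌊X⌋₊ + 1 := by exact_mod_cast (show m ≤ ⌊X⌋₊ + 1 by omega)
    have h2 := Nat.floor_le hX0
    linarith
  have hsub : {t : ℕ | t ∈ S ∧ (t : ℝ) ≤ X} ⊆ ((A ∪ A.image (fun m => m - 1) : Finset ℕ) : Set ℕ) := by
    rintro t ⟨ht, htX⟩
    have h1 : t ≤ ⌊X⌋₊ := Nat.le_floor htX
    rw [Finset.mem_coe, Finset.mem_union]
    rcases ht with ht | ht
    · left
      rw [hA, Finset.mem_filter, Finset.mem_range]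
      exact ⟨by omega, ht⟩
    · right
      rw [Finset.mem_image]
      refine ⟨t + 1, ?_, by omega⟩
      rw [hA, Finset.mem_filter, Finset.mem_range]
      exact ⟨by omega, ht⟩
  have h1 := Set.ncard_le_ncard hsub (Finset.finite_toSet _)
  rw [Set.ncard_coe_finset] at h1
  have h2 := (h1.trans (Finset.card_union_le _ _)).trans (Nat.add_le_add_left Finset.card_image_le _)
  have h3 : ({t : ℕ | t ∈ S ∧ (t : ℝ) ≤ X}.ncard : ℝ) ≤ A.card + A.card := by exact_mod_cast h2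
  have h4 : C * (2 * X) ^ η ≤ |C| * 2 ^ (max η 0) * X ^ (max η 0 + ε) := by
    calc C * (2 * X) ^ η ≤ |C| * (2 * X) ^ η := mul_le_mul_of_nonneg_right (le_abs_self C) (by positivity)
      _ ≤ |C| * (2 * X) ^ (max η 0) := mul_le_mul_of_nonneg_left
          (Real.rpow_le_rpow_of_exponent_le (by linarith) (le_max_left _ _)) (abs_nonneg C)
      _ = |C| * 2 ^ (max η 0) * X ^ (max η 0) := by
          rw [Real.mul_rpow (by norm_num) hX0]
          ring
      _ ≤ |C| * 2 ^ (max η 0) * X ^ (max η 0 + ε) := mul_le_mul_of_nonneg_left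
          (Real.rpow_le_rpow_of_exponent_le hX (by linarith)) (by positivity)
  linarith

/-- **Theorem.** There is `0 ≤ η < H` (`H = 0.94995...`) such that: (1) if `ν n / log n → ∞`, `B` is countable and
`0 ≤ θ < 1`, then for all `z > 1` outside a set of Hausdorff dimension at most `η / (1 - θ)`, all `β > 0` in `B` and all
large `n`, no attracting cycle of `f` in `(0, ∞)` contracts at a point `x` with `|x - β z ^ (ν n)| ≤ z ^ (θ ν n)`
(`ContractsAt x`; except at points just below even integers); (2) if `0 ≤ θ < 1`, then for all `α > 0` outside a set whose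
part in `[a, ∞)` has dimension at most `(η + 1 / a) / (1 - θ)` for every `a > 0`, and all large `n`, this holds for the `x`
with `|x - n ^ α| ≤ n ^ (α θ)`; (3) for almost every `z > 1` the statement in (1) holds with `θ = 1 - H`, for all
`β > 0` in `B`; (4) there is `a` such that for almost every `α ≥ a` the statement in (2) holds with `θ = 1 - H`. -/
theorem result : ∃ η : ℝ, 0 ≤ η ∧ η < H ∧
    (∀ (ν : ℕ → ℝ) (B : Set ℝ) (θ : ℝ), Tendsto (fun n : ℕ => ν n / Real.log n) atTop atTop → B.Countable →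
      0 ≤ θ → θ < 1 → ∃ E : Set ℝ, dimH E ≤ ENNReal.ofReal (η / (1 - θ)) ∧ ∀ z : ℝ, 1 < z → z ∉ E →
        ∀ β ∈ B, 0 < β → ∃ n₀ : ℕ, ∀ n : ℕ, n₀ ≤ n → ∀ x : ℝ, |x - β * z ^ ν n| ≤ z ^ (θ * ν n) →
          ¬ ContractsAt x) ∧
    (∀ θ : ℝ, 0 ≤ θ → θ < 1 →
      ∃ E : Set ℝ, (∀ a : ℝ, 0 < a → dimH (E ∩ Set.Ici a) ≤ ENNReal.ofReal ((η + 1 / a) / (1 - θ))) ∧
        ∀ α : ℝ, 0 < α → α ∉ E → ∃ n₀ : ℕ, ∀ n : ℕ, n₀ ≤ n → ∀ x : ℝ,
          |x - (n : ℝ) ^ α| ≤ ((n : ℝ) ^ α) ^ θ → ¬ ContractsAt x) ∧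
    (∀ (ν : ℕ → ℝ) (B : Set ℝ), Tendsto (fun n : ℕ => ν n / Real.log n) atTop atTop → B.Countable →
      ∀ᵐ z : ℝ, 1 < z → ∀ β ∈ B, 0 < β → ∃ n₀ : ℕ, ∀ n : ℕ, n₀ ≤ n → ∀ x : ℝ,
        |x - β * z ^ ν n| ≤ z ^ ((1 - H) * ν n) → ¬ ContractsAt x) ∧
    (∃ a : ℝ, 0 < a ∧ ∀ᵐ α : ℝ, a ≤ α → ∃ n₀ : ℕ, ∀ n : ℕ, n₀ ≤ n → ∀ x : ℝ,
        |x - (n : ℝ) ^ α| ≤ ((n : ℝ) ^ α) ^ (1 - H) → ¬ ContractsAt x) := by
  obtain ⟨⟨η, C, hη, h⟩, -, -⟩ := Pool.Agent.Results.MP_a247fa_nt.ContractionSparsity.result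
  have hηH : max η 0 < H := max_lt hη H_pos
  have hη0 : 0 ≤ max η 0 := le_max_right _ _
  have hc := count_S h
  have hH1 := H_le
  have hH0 := H_pos
  have part1 : ∀ (ν : ℕ → ℝ) (B : Set ℝ) (θ : ℝ), Tendsto (fun n : ℕ => ν n / Real.log n) atTop atTop →
      B.Countable → 0 ≤ θ → θ < 1 → ∃ E : Set ℝ, dimH E ≤ ENNReal.ofReal (max η 0 / (1 - θ)) ∧
        ∀ z : ℝ, 1 < z → z ∉ E → ∀ β ∈ B, 0 < β → ∃ n₀ : ℕ, ∀ n : ℕ, n₀ ≤ n → ∀ x : ℝ,
          |x - β * z ^ ν n| ≤ z ^ (θ * ν n) → ¬ ContractsAt x := by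
    intro ν B θ hν hB hθ0 hθ1
    obtain ⟨E, hE1, hE2⟩ := Pool.Agent.V11001.KM.real_powers S hν hη0 hθ0 hθ1 hc B hB
    refine ⟨E, hE1, fun z hz hzE β hβ hβ0 => ?_⟩
    obtain ⟨n₀, hn⟩ := hE2 z hz hzE β hβ hβ0
    exact ⟨n₀, fun n hn1 x hw hx => hn n hn1 x hx.1.1.le hw (floor_mem hx)⟩
  have part2 : ∀ θ : ℝ, 0 ≤ θ → θ < 1 →
      ∃ E : Set ℝ, (∀ a : ℝ, 0 < a → dimH (E ∩ Set.Ici a) ≤ ENNReal.ofReal ((max η 0 + 1 / a) / (1 - θ))) ∧
        ∀ α : ℝ, 0 < α → α ∉ E → ∃ n₀ : ℕ, ∀ n : ℕ, n₀ ≤ n → ∀ x : ℝ,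
          |x - (n : ℝ) ^ α| ≤ ((n : ℝ) ^ α) ^ θ → ¬ ContractsAt x := by
    intro θ hθ0 hθ1
    obtain ⟨E, hE1, hE2⟩ := Pool.Agent.Helper203.NP.real_exps S hη0 hθ0 hθ1 (fun ε' hε' => by
      obtain ⟨C, hC⟩ := hc ε' hε'
      exact ⟨C, fun X hX => (hC X hX).2⟩)
    refine ⟨E, hE1, fun α hα hαE => ?_⟩
    obtain ⟨n₀, hn⟩ := hE2 α hα hαE
    exact ⟨n₀, fun n hn1 x hw hx => hn n hn1 x hx.1.1.le hw (floor_mem hx)⟩
  refine ⟨max η 0, hη0, hηH, part1, part2, fun ν B hν hB => ?_, ?_⟩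
  · obtain ⟨E, hE1, hE2⟩ := part1 ν B (1 - H) hν hB (by linarith) (by linarith)
    have hnull : volume E = 0 := Pool.Agent.Helper203.NP.null_of_dim hE1 (by
      rw [sub_sub_cancel, div_lt_one hH0]
      exact hηH)
    filter_upwards [compl_mem_ae_iff.2 hnull] with z hz hz1 β hβ hβ0
    exact hE2 z hz1 hz β hβ hβ0
  · obtain ⟨E, hE1, hE2⟩ := part2 (1 - H) (by linarith) (by linarith)
    have hg : 0 < H - max η 0 := by linarith
    refine ⟨2 / (H - max η 0), by positivity, ?_⟩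
    have hnull : volume (E ∩ Set.Ici (2 / (H - max η 0))) = 0 :=
      Pool.Agent.Helper203.NP.null_of_dim (hE1 _ (by positivity)) (by
        rw [sub_sub_cancel, div_lt_one hH0, one_div_div]
        linarith)
    filter_upwards [compl_mem_ae_iff.2 hnull] with α hα hα1
    have hα0 : 0 < α := lt_of_lt_of_le (by positivity) hα1
    exact hE2 α hα0 (fun hmem => hα ⟨hmem, hα1⟩)

end Pool.Agent.Results.MP_a247fa_nt.ContractionNearPowers
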