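import Pool.Agent.V11201.SH.N
import Pool.Agent.H499R2.CO.S3
import Pool.Agent.Results.MP_a247fa_nt.OddCriticalPoints

set_option autoImplicit false

/-! Chamberland's real extension `f` of the `3x+1` map: the orbits of the critical points just above the odd
integers of a short interval. -/

namespace Pool.Agent.Results.MP_a247fa_nt.CriticalShortIntervals

open Filter Topology

/-- Chamberland's map -/
noncomputable def f (x : ℝ) : ℝ := x + 1 / 4 - (2 * x + 1) / 4 * Real.cos (Real.pi * x)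

/-- the accelerated `3x+1` map -/
def T (m : ℕ) : ℕ := if m % 2 = 0 then m / 2 else (3 * m + 1) / 2

/-- `c` is a critical point of `f` in `(n, n + 1/2)` -/
def IsCrit (n : ℕ) (c : ℝ) : Prop := (n : ℝ) < c ∧ c < n + 1 / 2 ∧ deriv f c = 0

/-- the orbit of `x` converges to the cycle of `y` -/
def Attracts (y x : ℝ) : Prop :=
  ∃ j : ℕ, Tendsto (fun k : ℕ => f^[k * Function.minimalPeriod f y + j] x) atTop (𝓝 y)

/-- The orbit of `c` converges to the cycle `{1, 2}` or to the cycle of `a`, or it ends in a cycle of period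
at most two which meets `[1.02, 1.05]`. -/
def Tame (a c : ℝ) : Prop :=
  Attracts 1 c ∨ Attracts a c ∨ ∃ K, f^[K] c ∈ Set.Icc (1.02 : ℝ) 1.05 ∧ f^[K + 2] c = f^[K] c

/-- The orbits of the critical points above `n` and `m` stay together from the time `t` on: both are in
`[v, v + 5 / (6 (2 v + 1))]`, `v = T^k n`, at all the times `k ≥ t`. -/
def Together (t n m : ℕ) : Prop := ∀ k ≥ t, ∀ c : ℝ, IsCrit n c ∨ IsCrit m c →
  ((T^[k] n : ℕ) : ℝ) ≤ f^[k] c ∧ f^[k] c ≤ (T^[k] n : ℕ) + 5 / (6 * (2 * ((T^[k] n : ℕ) : ℝ) + 1))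

/-- the number of the `1 ≤ j ≤ H` for which the critical points above `n` and `n + 2 j` do not stay
together from any time `t` with `4 ^ t ≤ N` on -/
noncomputable def apart (N n H : ℕ) : ℕ :=
  {j : ℕ | 1 ≤ j ∧ j ≤ H ∧ ¬ ∃ t : ℕ, 4 ^ t ≤ N ∧ Together t n (n + 2 * j)}.ncard

/-- the number of the `1 ≤ j ≤ H` for which the critical points above `n` and `n + 2 j` do not stay
together from any time on -/
noncomputable def never (n H : ℕ) : ℕ := {j : ℕ | 1 ≤ j ∧ j ≤ H ∧ ¬ ∃ t : ℕ, Together t n (n + 2 * j)}.ncard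

/-- the number of the `1 ≤ j ≤ H` for which the critical point above `n + 2 j` is tame -/
noncomputable def tames (a : ℝ) (n H : ℕ) : ℕ :=
  {j : ℕ | 1 ≤ j ∧ j ≤ H ∧ ∀ c, IsCrit (n + 2 * j) c → Tame a c}.ncard

/-- among the odd positive integers, those with the property `P` have the natural density `δ` -/
def HasOddDensity (P : ℕ → Prop) (δ : ℝ) : Prop :=
  Tendsto (fun N : ℕ => 2 / (N : ℝ) * ({m : ℕ | m ≤ N ∧ Odd m ∧ P m}.ncard : ℝ)) atTop (𝓝 δ)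

/-- `g n = n ^ o(1)`: `log (1 + g n) / log n` tends to `0` -/
def SubPower (g : ℕ → ℕ) : Prop := Tendsto (fun n : ℕ => Real.log (1 + g n) / Real.log n) atTop (𝓝 0)

/-- For every `ε > 0` there is `c > 0` such that for all `θ > 0` and infinitely many `N`: for all but `ε N`
of the `n ≤ N` at least `c H` of the integers `n + 1, ..., n + H` are in `S`, `H = ⌊N ^ θ⌋`. -/
def Spread (S : Set ℕ) : Prop :=
  ∀ ε : ℝ, 0 < ε → ∃ c : ℝ, 0 < c ∧ ∀ θ : ℝ, 0 < θ → ∃ᶠ N : ℕ in atTop,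
    ({n : ℕ | 1 ≤ n ∧ n ≤ N ∧ (({j : ℕ | 1 ≤ j ∧ j ≤ ⌊(N : ℝ) ^ θ⌋₊ ∧ n + j ∈ S}.ncard : ℕ) : ℝ) <
      c * ⌊(N : ℝ) ^ θ⌋₊}.ncard : ℝ) ≤ ε * N

/-- `n` reaches `1` -/
def Reach (n : ℕ) : Prop := ∃ k, T^[k] n = 1

/-- the facts about single critical points (starting file `OddCriticalPoints`) -/
theorem base : ∃ a : ℝ, a ∈ Set.Icc (1.19 : ℝ) 1.196 ∧ f (f a) = a ∧
    ∀ n : ℕ, n % 2 = 1 → ∃ c : ℝ, IsCrit n c ∧ (∀ x, IsCrit n x → x = c) ∧
      (∀ k : ℕ, ((T^[k] n : ℕ) : ℝ) ≤ f^[k] c ∧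
          f^[k] c ≤ (T^[k] n : ℕ) + 5 / (6 * (2 * ((T^[k] n : ℕ) : ℝ) + 1))) ∧
      (Reach n ↔ Tame a c) := by
  obtain ⟨a, ha, hfa, _, _, _, _, h⟩ := Pool.Agent.Results.MP_a247fa_nt.OddCriticalPoints.result
  refine ⟨a, ha, hfa, fun n hn => ?_⟩
  obtain ⟨c, h1, h2, h3, h4, h5, h6, _⟩ := h n hn
  exact ⟨c, ⟨h1, h2, h3⟩, fun x hx => h4 x hx.1 hx.2.1 hx.2.2, h5, h6⟩

theorem together_of {n m t : ℕ} (hn : n % 2 = 1) (hm : m % 2 = 1)
    (h : T^[t] n = T^[t] m) : Together t n m := by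
  obtain ⟨a, _, _, hb⟩ := base
  intro k hk c hc
  obtain ⟨i, rfl⟩ := Nat.exists_eq_add_of_le hk
  have e : T^[t + i] m = T^[t + i] n := by
    rw [Nat.add_comm, Function.iterate_add_apply, Function.iterate_add_apply, h]
  rcases hc with hc | hc
  · obtain ⟨c', _, h1, h2, _⟩ := hb n hn
    rw [h1 c hc]
    exact h2 (t + i)
  · obtain ⟨c', _, h1, h2, _⟩ := hb m hm
    rw [h1 c hc, ← e]
    exact h2 (t + i)

open Pool.Agent.V11201.SH in
theorem mg_together {N n j : ℕ} (hn : n % 2 = 1) (h : Mg 1 N (n : ℤ) ((n : ℤ) + 1 * ((2 * j : ℕ) : ℤ))) :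
    ∃ t : ℕ, 4 ^ t ≤ N ∧ Together t n (n + 2 * j) := by
  obtain ⟨t, ht, h1, _⟩ := h
  refine ⟨t, ht, ?_⟩
  have e : (n : ℤ) + 1 * ((2 * j : ℕ) : ℤ) = ((n + 2 * j : ℕ) : ℤ) := by push_cast; ring
  rw [e, Pool.Agent.H499R2.CO.Tn_iter_cast, Pool.Agent.H499R2.CO.Tn_iter_cast] at h1
  exact together_of hn (by omega) (by exact_mod_cast h1)

theorem sets_eq (N : ℕ) (P : ℕ → Prop) :
    {m : ℕ | m ≤ N ∧ Odd m ∧ P m} = {m : ℕ | 1 ≤ m ∧ m ≤ N ∧ (m % 2 = 1 ∧ P m)} := by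
  ext m
  constructor
  · rintro ⟨h1, h2, h3⟩; exact ⟨h2.pos, h1, Nat.odd_iff.1 h2, h3⟩
  · rintro ⟨h1, h2, h3, h4⟩; exact ⟨h2, Nat.odd_iff.2 h3, h4⟩

/-- odd densities and densities -/
theorem odd_density_of {P Q : ℕ → Prop} {δ : ℝ} (h : Pool.Agent.H499R2.CO.HD Q (δ / 2))
    (hPQ : ∀ n, 1 ≤ n → (Q n ↔ n % 2 = 1 ∧ P n)) : HasOddDensity P δ := by
  unfold HasOddDensity
  have h1 := h.const_mul 2
  rw [mul_div_cancel₀ δ (by norm_num : (2 : ℝ) ≠ 0)] at h1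
  refine h1.congr fun N => ?_
  have e : {m : ℕ | 1 ≤ m ∧ m ≤ N ∧ Q m} = {m : ℕ | m ≤ N ∧ Odd m ∧ P m} := by
    ext m
    constructor
    · rintro ⟨g1, g2, g3⟩
      have g4 := (hPQ m g1).1 g3
      exact ⟨g2, Nat.odd_iff.2 g4.1, g4.2⟩
    · rintro ⟨g2, g3, g4⟩
      exact ⟨g3.pos, g2, (hPQ m g3.pos).2 ⟨Nat.odd_iff.1 g3, g4⟩⟩
  rw [e]
  ring

theorem reach_inv (n : ℕ) : Reach n ↔ Reach (T n) := by
  constructor
  · rintro ⟨k, hk⟩
    rcases k with _ | k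
    · refine ⟨1, ?_⟩
      have : n = 1 := hk
      subst this
      rfl
    · exact ⟨k, by rw [Function.iterate_succ_apply] at hk; exact hk⟩
  · rintro ⟨k, hk⟩
    exact ⟨k + 1, by rw [Function.iterate_succ_apply]; exact hk⟩

theorem reach_iter (t : ℕ) : ∀ n, Reach n ↔ Reach (T^[t] n) := by
  induction t with
  | zero => intro n; rfl
  | succ t ih => intro n; rw [Function.iterate_succ_apply, ← ih, ← reach_inv]

theorem reach_meet {n m : ℕ} (h : ∃ t : ℕ, T^[t] n = T^[t] m) : Reach n ↔ Reach m := by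
  obtain ⟨t, ht⟩ := h
  rw [reach_iter t n, ht, ← reach_iter t m]

/-- the critical point above `n` is tame -/
def TameAbove (a : ℝ) (n : ℕ) : Prop := ∀ c, IsCrit n c → Tame a c

theorem tame_iff {a : ℝ} (hb : ∀ n : ℕ, n % 2 = 1 → ∃ c : ℝ, IsCrit n c ∧ (∀ x, IsCrit n x → x = c) ∧
      (∀ k : ℕ, ((T^[k] n : ℕ) : ℝ) ≤ f^[k] c ∧
          f^[k] c ≤ (T^[k] n : ℕ) + 5 / (6 * (2 * ((T^[k] n : ℕ) : ℝ) + 1))) ∧
      (Reach n ↔ Tame a c)) {n : ℕ} (hn : n % 2 = 1) : TameAbove a n ↔ Reach n := by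
  obtain ⟨c, h1, h2, _, h4⟩ := hb n hn
  rw [h4]
  constructor
  · intro h; exact h c h1
  · intro h x hx; rw [h2 x hx]; exact h

theorem never_le {n : ℕ} (hn : n % 2 = 1) (H : ℕ) : never n H ≤ Pool.Agent.V11201.SH.nm 2 n H := by
  unfold never Pool.Agent.V11201.SH.nm
  apply Set.ncard_le_ncard
  · rintro j ⟨h1, h2, h3⟩
    refine ⟨h1, h2, ?_⟩
    rintro ⟨t, ht⟩
    exact h3 ⟨t, together_of hn (by omega) ht⟩
  · exact Pool.Agent.V11201.SH.fin_le _ H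

/-- sufficient sets for reaching `1` -/
theorem spread_reach {S : Set ℕ} (hS : Spread S) (h : ∀ m ∈ S, Reach m) : ∀ n : ℕ, 1 ≤ n → Reach n := by
  have hreach : ∀ n : ℕ, Reach n ↔ ∃ k : ℕ, (Pool.Agent.H499R2.CO.Tz 1)^[k] (n : ℤ) = 1 := by
    intro n
    unfold Reach
    refine exists_congr fun k => ?_
    rw [Pool.Agent.H499R2.CO.Tn_iter_cast]
    exact ⟨fun h => by
      have : (Pool.Agent.H499R2.ND.Tn)^[k] n = 1 := h
      rw [this]; rfl, fun h => by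
      have : (Pool.Agent.H499R2.ND.Tn)^[k] n = 1 := by exact_mod_cast h
      exact this⟩
  set R : Set ℤ := {x | ∃ k : ℕ, (Pool.Agent.H499R2.CO.Tz 1)^[k] x = 1} with hR
  have hinv : ∀ x, x ∈ R ↔ Pool.Agent.H499R2.CO.Tz 1 x ∈ R := by
    intro x
    constructor
    · rintro ⟨k, hk⟩
      rcases k with _ | k
      · refine ⟨1, ?_⟩
        have : x = 1 := hk
        subst this
        rfl
      · exact ⟨k, by rw [Function.iterate_succ_apply] at hk; exact hk⟩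
    · rintro ⟨k, hk⟩
      exact ⟨k + 1, by rw [Function.iterate_succ_apply]; exact hk⟩
  have key := Pool.Agent.H499R2.CO.spread_inv (s := 1) (Or.inl rfl) hinv {x : ℤ | 0 < x ∧ x.toNat ∈ S} (by
    intro ε hε
    obtain ⟨c, hc, h1⟩ := hS ε hε
    refine ⟨c, hc, fun θ hθ => (h1 θ hθ).mono fun N hN => le_trans (le_of_eq ?_) hN⟩
    congr 2
    ext n
    have e : Pool.Agent.H499R2.CO.cnt {x : ℤ | 0 < x ∧ x.toNat ∈ S} (1 * n) ⌊(N : ℝ) ^ θ⌋₊ =
        {j : ℕ | 1 ≤ j ∧ j ≤ ⌊(N : ℝ) ^ θ⌋₊ ∧ n + j ∈ S}.ncard := by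
      unfold Pool.Agent.H499R2.CO.cnt
      congr 1
      ext j
      have e2 : (1 : ℤ) * (n : ℤ) + (j : ℤ) = ((n + j : ℕ) : ℤ) := by push_cast; ring
      simp only [Set.mem_ofPred_eq, e2, Int.toNat_natCast]
      constructor
      · rintro ⟨a1, a2, _, a4⟩; exact ⟨a1, a2, a4⟩
      · rintro ⟨a1, a2, a4⟩; exact ⟨a1, a2, by omega, a4⟩
    simp only [Set.mem_ofPred_eq, e])
    (by
      rintro x ⟨hx, hxS⟩ _
      have h2 := (hreach x.toNat).1 (h _ hxS)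
      rw [Int.toNat_of_nonneg hx.le] at h2
      exact h2)
  intro n hn
  exact (hreach n).2 (key n (by omega))

open Pool.Agent.V11201.SH in
/-- CRITICAL POINTS OF CHAMBERLAND'S MAP IN SHORT INTERVALS.
For odd `n` let `c_n` be the critical point of `f` in `(n, n + 1/2)`.
(1) For at most `(A / κ) √((1 + log (1 + H)) log log N / log N) N` of the odd `n ≤ N` the orbits of more than
`κ H` of the critical points `c_(n + 2 j)`, `j ≤ H`, do not stay together with the orbit of `c_n` from a time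
`t ≤ (log N) / log 4` on.
(2) For every `ε > 0` there is `θ > 0` such that for large `N`, for all but `ε N` of the odd `n ≤ N` and ALL
`1 ≤ H ≤ N ^ θ` the orbits of all but `ε H` of the `c_(n + 2 j)`, `j ≤ H`, finally stay together with the one
of `c_n`; for almost all odd `n` this is so for all `1 ≤ H ≤ g n`, if `g n = n ^ o(1)`.
(3) The odd `n` with tame `c_n` have a density `δ > 0`; for almost all of them all but `ε H` of the
`c_(n + 2 j)`, `j ≤ H`, are tame, for all `1 ≤ H ≤ g n`, and for almost all other odd `n` at most `ε H`.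
(4) If `S` is a spread set of odd integers and the `c_m`, `m ∈ S`, are tame, then all `c_n` are tame and
every positive integer reaches `1`. -/
theorem result :
    ∃ a : ℝ, a ∈ Set.Icc (1.19 : ℝ) 1.196 ∧ f (f a) = a ∧
    (∀ n : ℕ, Odd n → ∃! c : ℝ, IsCrit n c) ∧
    (∃ A : ℝ, 0 < A ∧ ∀ N : ℕ, 16 ≤ N → ∀ (H : ℕ) (κ : ℝ), 0 < κ →
      ({n : ℕ | n ≤ N ∧ Odd n ∧ κ * H < apart N n H}.ncard : ℝ) ≤
        A / κ * √ ((1 + Real.log (1 + H)) * (Real.log (Real.log N) / Real.log N)) * N) ∧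
    (∀ ε : ℝ, 0 < ε → ∃ θ : ℝ, 0 < θ ∧ ∃ N₀ : ℕ, ∀ N ≥ N₀,
      ({n : ℕ | n ≤ N ∧ Odd n ∧ ∃ H : ℕ, 1 ≤ H ∧ (H : ℝ) ≤ (N : ℝ) ^ θ ∧ ε * H < never n H}.ncard : ℝ) ≤
        ε * N) ∧
    (∀ g : ℕ → ℕ, SubPower g → ∀ ε : ℝ, 0 < ε →
      HasOddDensity (fun n => ∀ H : ℕ, 1 ≤ H → H ≤ g n → (never n H : ℝ) ≤ ε * H) 1) ∧
    (∃ δ : ℝ, 0 < δ ∧ δ ≤ 1 ∧ (δ = 1 ↔ ∀ n : ℕ, Odd n → TameAbove a n) ∧
      ∀ g : ℕ → ℕ, SubPower g → ∀ ε : ℝ, 0 < ε →
        HasOddDensity (fun n => TameAbove a n ∧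
          ∀ H : ℕ, 1 ≤ H → H ≤ g n → (1 - ε) * H ≤ tames a n H) δ ∧
        HasOddDensity (fun n => ¬ TameAbove a n ∧
          ∀ H : ℕ, 1 ≤ H → H ≤ g n → (tames a n H : ℝ) ≤ ε * H) (1 - δ)) ∧
    (∀ S : Set ℕ, Spread S → (∀ m ∈ S, Odd m ∧ TameAbove a m) →
      (∀ n : ℕ, Odd n → TameAbove a n) ∧ ∀ n : ℕ, 1 ≤ n → ∃ k : ℕ, T^[k] n = 1) := by
  obtain ⟨a, ha, hfa, hb⟩ := base
  have htame : ∀ {n : ℕ}, n % 2 = 1 → (TameAbove a n ↔ Reach n) := fun hn => tame_iff hb hn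
  have hodd : Pool.Agent.H499R2.CO.HD (fun n => n % 2 = 1) (1 / 2) := Pool.Agent.H499R2.ND.odd_density
  refine ⟨a, ha, hfa, ?_, ?_, ?_, ?_, ?_, ?_⟩
  · intro n hn
    obtain ⟨c, h1, h2, _⟩ := hb n (Nat.odd_iff.1 hn)
    exact ⟨c, h1, h2⟩
  · classical
    obtain ⟨A, hA, h⟩ := Mg_pairs
    refine ⟨2 * A, by positivity, fun N hN H κ hκ => ?_⟩
    have hone := one_scale (R := fun n j => n % 2 = 1 ∧ ¬ ∃ t : ℕ, 4 ^ t ≤ N ∧ Together t n (n + 2 * j))
      (N := N) (H := H) (ε := 2 * A / κ * √ ((1 + Real.log (1 + (H : ℝ))) * lam N)) (κ := κ)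
      (by positivity) hκ (by
        intro j hj1 hjH
        have h1 := h N hN 1 (by norm_num) ((2 * j : ℕ) : ℤ)
        rw [← Pool.Agent.H499R2.CO.ncard_filter] at h1
        have e : |((((2 * j : ℕ) : ℤ)) : ℝ)| = 2 * (j : ℝ) := by
          rw [abs_of_nonneg (by positivity)]; push_cast; ring
        rw [e] at h1
        have hlam := lam_pos hN
        have hj0 : (0 : ℝ) ≤ j := by positivity
        have hjr : (j : ℝ) ≤ H := by exact_mod_cast hjH
        have h2 : Real.log (1 + 2 * (j : ℝ)) ≤ 1 + Real.log (1 + (H : ℝ)) := by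
          have h3 : Real.log (1 + 2 * (j : ℝ)) ≤ Real.log (2 * (1 + (H : ℝ))) := by
            apply Real.log_le_log (by positivity)
            linarith
          rw [Real.log_mul (by norm_num) (by positivity)] at h3
          have := Real.log_two_lt_d9
          linarith
        have hlog : 0 ≤ Real.log (1 + (H : ℝ)) := Real.log_nonneg (by linarith)
        have h3 : √ ((1 + Real.log (1 + 2 * (j : ℝ))) * lam N) ≤ 2 * √ ((1 + Real.log (1 + (H : ℝ))) * lam N) := by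
          rw [Real.sqrt_le_left (by positivity)]
          rw [mul_pow, Real.sq_sqrt (by positivity)]
          nlinarith
        have h4 : ({n : ℕ | 1 ≤ n ∧ n ≤ N ∧ (n % 2 = 1 ∧ ¬ ∃ t : ℕ, 4 ^ t ≤ N ∧ Together t n (n + 2 * j))}.ncard : ℝ) ≤
            ({n : ℕ | 1 ≤ n ∧ n ≤ N ∧ ¬ Mg 1 N ((n : ℕ) : ℤ) ((n : ℤ) + 1 * ((2 * j : ℕ) : ℤ))}.ncard : ℝ) := by
          exact_mod_cast Set.ncard_le_ncard (by
            rintro n ⟨a1, a2, a3, a4⟩
            exact ⟨a1, a2, fun h5 => a4 (mg_together a3 h5)⟩) (fin_le _ N)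
        refine (h4.trans h1).trans ?_
        have e2 : 2 * A / κ * √ ((1 + Real.log (1 + (H : ℝ))) * lam N) * κ * N =
            A * (2 * √ ((1 + Real.log (1 + (H : ℝ))) * lam N)) * N := by field_simp
        rw [e2]
        apply mul_le_mul_of_nonneg_right _ (by positivity)
        exact mul_le_mul_of_nonneg_left h3 hA.le)
    refine le_trans ?_ hone
    rw [sets_eq]
    exact_mod_cast Set.ncard_le_ncard (by
      rintro n ⟨b1, b2, b3, b4⟩
      refine ⟨b1, b2, b4.trans_le ?_⟩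
      have h5 : apart N n H ≤ bd (fun n j => n % 2 = 1 ∧ ¬ ∃ t : ℕ, 4 ^ t ≤ N ∧ Together t n (n + 2 * j)) n H := by
        unfold apart bd
        apply Set.ncard_le_ncard
        · rintro j ⟨h1, h2, h3⟩
          exact ⟨h1, h2, b3, h3⟩
        · exact fin_le _ H
      exact_mod_cast h5) (fin_le _ N)
  · intro ε hε
    obtain ⟨θ, hθ, N0, h⟩ := nm_max 2 hε
    refine ⟨θ, hθ, N0, fun N hN => le_trans ?_ (h N hN)⟩
    rw [sets_eq]
    exact_mod_cast Set.ncard_le_ncard (by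
      rintro n ⟨b1, b2, b3, H, d1, d2, d3⟩
      refine ⟨b1, b2, H, d1, d2, d3.trans_le ?_⟩
      exact_mod_cast never_le b3 H) (fin_le _ N)
  · intro g hg ε hε
    refine odd_density_of (Q := fun n => n % 2 = 1 ∧ ∀ H : ℕ, 1 ≤ H → H ≤ g n → (never n H : ℝ) ≤ ε * H)
      ?_ (fun n _ => Iff.rfl)
    refine Pool.Agent.H499R2.CO.HD_congr (nm_dens 2 hg hε) hodd (fun n _ hn => ?_)
    refine ⟨fun h => ⟨h, fun H hH1 hH2 => ?_⟩, fun h => h.1⟩
    have h6 : (never n H : ℝ) ≤ nm 2 n H := by exact_mod_cast never_le h H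
    linarith [hn H hH1 hH2]
  · obtain ⟨δ, h0, h1, h2, h3, _⟩ := Pool.Agent.H499R2.HL.law_ht
    have hbas : ∀ {n : ℕ}, n % 2 = 1 → (Reach n ↔ ∃ h, Pool.Agent.H499R2.ND.IsHt n h) := fun hn =>
      Pool.Agent.H499R2.ND.ht_iff (Nat.odd_iff.2 hn)
    have hP : Pool.Agent.H499R2.CO.HD (fun n => n % 2 = 1 ∧ Reach n) (δ / 2) := by
      refine Pool.Agent.H499R2.LT.Dn_iff (fun n _ => and_congr_right fun hn => ?_) h3
      exact (hbas hn).symm
    have hN : Pool.Agent.H499R2.CO.HD (fun n => n % 2 = 1 ∧ ¬ Reach n) ((1 - δ) / 2) := by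
      have h5 := HD_diff hodd hP (fun n _ h => h.1)
      have e : (1 : ℝ) / 2 - δ / 2 = (1 - δ) / 2 := by ring
      rw [e] at h5
      refine Pool.Agent.H499R2.CO.HD_congr (Pool.Agent.H499R2.HL.HD_large 0) h5 (fun n _ _ => ?_)
      constructor
      · rintro ⟨a1, a2⟩; exact ⟨a1, fun a3 => a2 ⟨a1, a3⟩⟩
      · rintro ⟨a1, a2⟩; exact ⟨a1, fun a3 => a2 a3.2⟩
    refine ⟨δ, h0, h1, ?_, fun g hg ε hε => ⟨?_, ?_⟩⟩
    · rw [h2]
      refine forall_congr' fun n => forall_congr' fun hn => ?_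
      rw [htame (Nat.odd_iff.1 hn), hbas (Nat.odd_iff.1 hn)]
    · refine odd_density_of (Q := fun n => n % 2 = 1 ∧ (TameAbove a n ∧
        ∀ H : ℕ, 1 ≤ H → H ≤ g n → (1 - ε) * H ≤ tames a n H)) ?_ (fun n _ => Iff.rfl)
      refine Pool.Agent.H499R2.CO.HD_congr (nm_dens 2 hg hε) hP (fun n _ hn => ?_)
      constructor
      · rintro ⟨a1, a2⟩
        refine ⟨a1, (htame a1).2 a2, fun H hH1 hH2 => ?_⟩
        have hsub : ((Finset.Icc 1 H : Finset ℕ) : Set ℕ) ⊆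
            {j : ℕ | 1 ≤ j ∧ j ≤ H ∧ ∀ c, IsCrit (n + 2 * j) c → Tame a c} ∪
            {j : ℕ | 1 ≤ j ∧ j ≤ H ∧ ¬ ∃ t : ℕ, (Pool.Agent.H499R2.ND.Tn)^[t] n =
              (Pool.Agent.H499R2.ND.Tn)^[t] (n + 2 * j)} := by
          intro j hj
          rw [Finset.coe_Icc] at hj
          by_cases h7 : ∃ t : ℕ, (Pool.Agent.H499R2.ND.Tn)^[t] n = (Pool.Agent.H499R2.ND.Tn)^[t] (n + 2 * j)
          · left
            have h8 : Reach (n + 2 * j) := (reach_meet h7).1 a2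
            exact ⟨hj.1, hj.2, (htame (by omega)).2 h8⟩
          · exact Or.inr ⟨hj.1, hj.2, h7⟩
        have h8 := (Set.ncard_le_ncard hsub ((fin_le _ H).union (fin_le _ H))).trans (Set.ncard_union_le _ _)
        rw [Set.ncard_coe_finset, Nat.card_Icc, Nat.add_sub_cancel] at h8
        have h9 : (H : ℝ) ≤ (tames a n H : ℝ) + (nm 2 n H : ℝ) := by exact_mod_cast h8
        linarith [hn H hH1 hH2]
      · rintro ⟨a1, a2, _⟩; exact ⟨a1, (htame a1).1 a2⟩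
    · refine odd_density_of (Q := fun n => n % 2 = 1 ∧ (¬ TameAbove a n ∧
        ∀ H : ℕ, 1 ≤ H → H ≤ g n → (tames a n H : ℝ) ≤ ε * H)) ?_ (fun n _ => Iff.rfl)
      refine Pool.Agent.H499R2.CO.HD_congr (nm_dens 2 hg hε) hN (fun n _ hn => ?_)
      constructor
      · rintro ⟨a1, a2⟩
        refine ⟨a1, fun h => a2 ((htame a1).1 h), fun H hH1 hH2 => ?_⟩
        have h7 : tames a n H ≤ nm 2 n H := by
          unfold tames nm
          apply Set.ncard_le_ncard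
          · rintro j ⟨b1, b2, b3⟩
            refine ⟨b1, b2, fun h8 => a2 ?_⟩
            have h9 : Reach (n + 2 * j) := (htame (by omega)).1 b3
            exact (reach_meet h8).2 h9
          · exact fin_le _ H
        have h8 : (tames a n H : ℝ) ≤ nm 2 n H := by exact_mod_cast h7
        linarith [hn H hH1 hH2]
      · rintro ⟨a1, a2, _⟩; exact ⟨a1, fun h => a2 ((htame a1).2 h)⟩
  · intro S hS hSt
    have hall := spread_reach hS (fun m hm => (htame (Nat.odd_iff.1 (hSt m hm).1)).1 (hSt m hm).2)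
    exact ⟨fun n hn => (htame (Nat.odd_iff.1 hn)).2 (hall n hn.pos), hall⟩

end Pool.Agent.Results.MP_a247fa_nt.CriticalShortIntervals
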